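import Pool.Agent.Helper69.VX.St

/-!
# Project VX (MP_e12aa9_pr): module STL, the projected influence of a bit of the star
-/

set_option autoImplicit false

namespace Pool.Agent.Helper58.VX

open Finset Filter Pool.Agent.Helper82.CN Pool.Agent.Helper11.PV Pool.Agent.Helper69.VX

/-- the probability of a `false` bit -/
lemma EE_bit {ι : Type} [Fintype ι] [DecidableEq ι] (p : ℝ) (i : ι) :
    EE p (fun η : ι → Bool => if η i = false then (1 : ℝ) else 0) = 1 - p := by
  have h := EE_marg p (fun _ : Fin 1 => i) (fun a b _ => Subsingleton.elim a b)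
    (fun ω : Fin 1 → Bool => if ω 0 = false then (1 : ℝ) else 0)
  rw [h, EE_succ, EE_zero, EE_zero]
  simp

/-- `AV p K F` depends only on the bits in `K` -/
lemma AV_eq {ι : Type} [Fintype ι] [DecidableEq ι] (p : ℝ) (K : Set ι) (F : (ι → Bool) → ℝ)
    {ω ω' : ι → Bool} (h : ∀ i ∈ K, ω i = ω' i) : AV p K F ω = AV p K F ω' := by
  have h1 : ∀ η, mix K ω η = mix K ω' η := by
    intro η
    funext i
    by_cases hi : i ∈ K
    · rw [mix_pos hi, mix_pos hi, h i hi]
    · rw [mix_neg hi, mix_neg hi]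
  unfold AV
  simp only [h1]

/-- the mean over one bit outside `K` -/
lemma AV_false {ι : Type} [Fintype ι] [DecidableEq ι] (p : ℝ) (K : Set ι) (F : (ι → Bool) → ℝ)
    (i : ι) (hi : i ∉ K) (hF : Dep (Set.univ \ {i}) F) (ω : ι → Bool) :
    AV p K (fun ζ => if ζ i = false then F ζ else 0) ω = (1 - p) * AV p K F ω := by
  have h := EE_indep p (fun j => j = i) (fun η : ι → Bool => if η i = false then (1 : ℝ) else 0)
    (fun η => F (mix K ω η)) (fun η η' h1 => by rw [h1 i rfl])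
    (fun η η' h1 => hF _ _ fun j hj => by
      have hji : j ≠ i := hj.2
      by_cases hK : j ∈ K
      · rw [mix_pos hK, mix_pos hK]
      · rw [mix_neg hK, mix_neg hK, h1 j hji])
  rw [EE_bit] at h
  unfold AV
  rw [← h]
  congr 1
  funext η
  show (if mix K ω η i = false then F (mix K ω η) else 0) = _
  rw [mix_neg hi]
  split_ifs <;> ring

/-- exchangeability of the vertices outside `A` -/
lemma AV_swap (p : ℝ) {V : Type} [Fintype V] [DecidableEq V] (l : ℕ) (A : Set V) {u v w : V}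
    (hu : u ∉ A) (hv : v ∉ A) (hw : w ∈ A) (ω : Sym2 V → Bool) :
    AV p (EK A) (DD (PH l) s(v, w)) ω = AV p (EK A) (DD (PH l) s(u, w)) ω := by
  set π : Equiv.Perm V := Equiv.swap u v with hπ
  have hfix : ∀ x ∈ A, π x = x := by
    intro x hx
    rw [hπ]
    exact Equiv.swap_apply_of_ne_of_ne (fun h => hu (h ▸ hx)) (fun h => hv (h ▸ hx))
  have himg : π '' A = A := by
    ext x
    constructor
    · rintro ⟨y, hy, rfl⟩
      rw [hfix y hy]; exact hy
    · intro hx
      exact ⟨x, hx, hfix x hx⟩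
  have h1 := AV_perm p (s2 π) (EK A) (DD (PH l) s(u, w)) ω
  rw [s2_EK, himg] at h1
  have h2 : (fun ζ : Sym2 V → Bool => DD (PH l) s(u, w) (fun i => ζ (s2 π i))) =
      DD (PH l) s(v, w) := by
    funext ζ
    rw [DD_PH_perm, s2_mk, hfix w hw]
    have : π u = v := by rw [hπ]; exact Equiv.swap_apply_left u v
    rw [this]
  rw [h2] at h1
  rw [← h1]
  refine AV_eq p (EK A) _ ?_
  intro e he
  induction e using Sym2.ind with
  | _ a b =>
    rw [mem_EK] at he
    rw [s2_mk, hfix a he.2.1, hfix b he.2.2]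

lemma le_al {V : Type} [Fintype V] (ω : Sym2 V → Bool) (S : Finset V)
    (hS : ∀ u ∈ S, ∀ v ∈ S, u ≠ v → ω s(u, v) = false) : S.card ≤ al ω := by
  unfold al
  exact @Finset.le_sup ℕ (Finset V) _ _ _ card S (by simpa using hS)

theorem hSTL : StPIV → StPIW → StSTL := by
  intro hPIV hPIW p n l A u w hp0 hp1 hu hw
  classical
  have h0 : (0 : ℝ) ≤ p := hp0.le
  have h1 : p ≤ 1 := hp1.le
  have hq : (0 : ℝ) < 1 - p := by linarith
  set K : Set (Sym2 (Fin n)) := EK (A : Set (Fin n)) with hK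
  have hnn : ∀ (v : Fin n) (ζ : Sym2 (Fin n) → Bool), 0 ≤ DD (PH l) s(v, w) ζ := by
    intro v ζ
    rcases (hPIV (Fin n) l).2.1 s(v, w) ζ with h | h <;> rw [h]
    exact zero_le_one
  have hpt : ∀ ω : Sym2 (Fin n) → Bool,
      ((n - A.card : ℕ) : ℝ) * AV p K (DD (PH l) s(u, w)) ω * (1 - p) ≤
        AV p K (fun ζ => (al ζ : ℝ)) ω := by
    intro ω
    have hcard : ((n - A.card : ℕ) : ℝ) = ((Aᶜ : Finset (Fin n)).card : ℝ) := by
      rw [Finset.card_compl, Fintype.card_fin]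
    have e1 : ((n - A.card : ℕ) : ℝ) * AV p K (DD (PH l) s(u, w)) ω * (1 - p) =
        ∑ v ∈ Aᶜ, AV p K (fun ζ => if ζ s(v, w) = false then DD (PH l) s(v, w) ζ else 0) ω := by
      have e2 : ∀ v ∈ Aᶜ, AV p K (fun ζ => if ζ s(v, w) = false then DD (PH l) s(v, w) ζ else 0) ω =
          (1 - p) * AV p K (DD (PH l) s(u, w)) ω := by
        intro v hv
        have hv' : v ∉ (A : Set (Fin n)) := by
          intro h
          exact (Finset.mem_compl.mp hv) (Finset.mem_coe.mp h)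
        rw [AV_false p K (DD (PH l) s(v, w)) s(v, w) ?_ (dep_DD _ _ (dep_univ _)) ω,
          AV_swap p l (A : Set (Fin n)) (u := u) (v := v) (w := w)
            (fun h => hu (Finset.mem_coe.mp h)) hv' (Finset.mem_coe.mpr hw) ω]
        rw [hK, mem_EK]
        intro h
        exact hv' h.2.1
      rw [Finset.sum_congr rfl e2, Finset.sum_const, nsmul_eq_mul, hcard]
      ring
    rw [e1]
    have e3 : ∑ v ∈ Aᶜ, AV p K (fun ζ => if ζ s(v, w) = false then DD (PH l) s(v, w) ζ else 0) ω =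
        AV p K (fun ζ => ∑ v ∈ Aᶜ, (if ζ s(v, w) = false then DD (PH l) s(v, w) ζ else 0)) ω := by
      unfold AV
      rw [← EE_sum]
    rw [e3]
    refine AV_mono h0 h1 K (fun ζ => ?_) ω
    refine le_trans ?_ (hPIW (Fin n) l ζ (al ζ) w (fun S hS => le_al ζ S hS))
    refine Finset.sum_le_sum_of_subset_of_nonneg (Finset.subset_univ _) (fun v _ _ => ?_)
    split_ifs
    · exact hnn v ζ
    · exact le_refl _
  have hAVnn : ∀ ω, 0 ≤ AV p K (DD (PH l) s(u, w)) ω := fun ω =>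
    AV_nonneg h0 h1 K (fun ζ => hnn u ζ) ω
  have hsq : ((n - A.card : ℕ) : ℝ) ^ 2 * NN p K (DD (PH l) s(u, w)) * (1 - p) ^ 2 ≤
      NN p K (fun ζ => (al ζ : ℝ)) := by
    unfold NN
    have e1 : ((n - A.card : ℕ) : ℝ) ^ 2 *
        EE p (fun ω => AV p K (DD (PH l) s(u, w)) ω ^ 2) * (1 - p) ^ 2 =
        EE p (fun ω => (((n - A.card : ℕ) : ℝ) * AV p K (DD (PH l) s(u, w)) ω * (1 - p)) ^ 2) := by
      rw [← EE_mul_left, ← EE_mul_right]
      congr 1
      funext ω
      ring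
    rw [e1]
    refine EE_mono h0 h1 fun ω => ?_
    have e2 : 0 ≤ ((n - A.card : ℕ) : ℝ) * AV p K (DD (PH l) s(u, w)) ω * (1 - p) :=
      mul_nonneg (mul_nonneg (Nat.cast_nonneg _) (hAVnn ω)) hq.le
    exact pow_le_pow_left₀ e2 (hpt ω) 2
  rw [le_div_iff₀ (by positivity)]
  exact le_trans hsq (NN_le h0 h1 K _)

end Pool.Agent.Helper58.VX
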